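import Pool.Agent.Run7.h204.PeakInt

/-!
# Lipschitz peak sets with a divergent integral

For every `0 < α < 1` there is a countable closed subset `E` of the unit circle which is a peak set for `A_α`
(analytic in the disc, continuous on the closed disc, Hölder of order `α` on the circle) and for which the
integral of `dist(·, E) ^ (-α)` over the circle is infinite.

The set is the one constructed by helper884 for `MP_129fce_an.PeakNotGevreyZero`: the point `1` and nodes
accumulating at `1`, in clusters; at the distance `X = 2^(-k)` from `1` there are nodes of spacing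
`G = Λ (k+1)^(1/α) X^(1/α)` on an arc of length about `X/8`.  So the cluster `k` contributes at least
`(X / 16) G ^ (-α) = Λ ^ (-α) / (16 (k + 1))` to the integral, and the harmonic series diverges.  That `E`
is a peak set is `H884.PS.Sys.peak` (the peak function is `1 - 1/(2g)`, `g` a sum of simple fractions).
-/

set_option autoImplicit false

namespace Pool.Agent.Results.MP_84bbc2_an.DivergentIntegral

open Metric Set MeasureTheory

/-- The class `A_α`: analytic in the open unit disc, continuous on the closed disc, and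
Hölder continuous of order `α` on the unit circle. -/
def MemA (α : ℝ) (f : ℂ → ℂ) : Prop :=
  DifferentiableOn ℂ f (ball 0 1) ∧ ContinuousOn f (closedBall 0 1) ∧
    ∃ C : ℝ, ∀ z ∈ sphere (0 : ℂ) 1, ∀ w ∈ sphere (0 : ℂ) 1, ‖f z - f w‖ ≤ C * ‖z - w‖ ^ α

/-- Closed subsets of the circle which are peak sets for `A_α`: some `f` in `A_α` is `1` on `E`
and has modulus less than one on the rest of the circle. -/
def IsPeakSet (α : ℝ) (E : Set ℂ) : Prop :=
  IsClosed E ∧ E ⊆ sphere (0 : ℂ) 1 ∧
    ∃ f : ℂ → ℂ, MemA α f ∧ (∀ z ∈ E, f z = 1) ∧ ∀ z ∈ sphere (0 : ℂ) 1 \ E, ‖f z‖ < 1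

/-- The integral of `dist(ζ, E) ^ (-α)` over the unit circle with respect to the arc length, a number in
`[0, ∞]`. -/
noncomputable def integral (α : ℝ) (E : Set ℂ) : ENNReal :=
  ∫⁻ θ in Ioc (0 : ℝ) (2 * Real.pi), (infEDist (Complex.exp (θ * Complex.I)) E) ^ (-α)

/-- **Q1, negative, for every `0 < α < 1`.** -/
theorem result : ∀ α : ℝ, 0 < α → α < 1 →
    ∃ E : Set ℂ, E.Countable ∧ IsPeakSet α E ∧ integral α E = ⊤ := by
  intro α hα0 hα1
  exact ⟨(H884.PS.sys hα0 hα1).E, H884.PS.E_countable hα0 hα1,
    H884.PS.Sys.peak hα0 hα1 (H884.PS.E_compact hα0 hα1).isClosed,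
    Run7.h204.PeakInt.diverges hα0 hα1⟩

end Pool.Agent.Results.MP_84bbc2_an.DivergentIntegral
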